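import Pool.Agent.T9h85.BR.Rds

/-! # Conditions of Bruck–Ryser type for difference sets with Singer parameters -/

set_option autoImplicit false

namespace Pool.Agent.T9h85.BR

open Finset NumberTheorySymbols ZMod
open Pool.Agent.H771R2.Lander (no_difference_set)

/-- Some finite group contains a difference set with the Singer parameters of `(n, m)`. -/
def HasSinger (n m : ℕ) : Prop :=
  ∃ (G : Type) (_ : Group G) (_ : Fintype G) (_ : DecidableEq G) (D : Finset G),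
    Fintype.card G * (n - 1) = n ^ m - 1 ∧ D.card * (n - 1) = n ^ (m - 1) - 1 ∧
    ∀ g : G, g ≠ 1 →
      ((D ×ˢ D).filter (fun p : G × G => p.1 * p.2⁻¹ = g)).card * (n - 1) = n ^ (m - 2) - 1

/-- a Jacobi symbol `-1` gives a prime modulo which a power is `-1` -/
theorem pow_of_jacobi {r w : ℕ} (hw : Odd w) (h : J((r : ℤ) | w) = -1) :
    ∃ q : ℕ, q.Prime ∧ 2 < q ∧ q ∣ w ∧ (r : ZMod q) ^ (q / 2) = -1 := by
  obtain ⟨q, hq, hqw, hJ⟩ := jacobiSym.eq_neg_one_at_prime_divisor_of_eq_neg_one h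
  have : Fact q.Prime := ⟨hq⟩
  have hq2 : 2 < q := by
    have h1 : q ≠ 2 := by
      rintro rfl
      exact (Nat.not_even_iff_odd.2 hw) (even_iff_two_dvd.2 hqw)
    have := hq.two_le
    omega
  refine ⟨q, hq, hq2, hqw, ?_⟩
  rw [← jacobiSym.legendreSym.to_jacobiSym] at hJ
  have h1 := legendreSym.eq_pow q (r : ℤ)
  rw [hJ] at h1
  push_cast at h1
  exact h1.symm

/-- the geometric sums -/
def geo (n m : ℕ) : ℕ := ∑ i ∈ range m, n ^ i

theorem geo_mul {n : ℕ} (hn : 2 ≤ n) (m : ℕ) : geo n m * (n - 1) = n ^ m - 1 := by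
  unfold geo
  exact Nat.geomSum_eq (by omega) m ▸ (Nat.div_mul_cancel (by
    simpa using Nat.sub_dvd_pow_sub_pow n 1 m))

theorem geo_dvd {n : ℕ} (hn : 2 ≤ n) {p m : ℕ} (h : p ∣ m) : geo n p ∣ geo n m := by
  obtain ⟨c, rfl⟩ := h
  have h1 : n ^ p - 1 ∣ n ^ (p * c) - 1 := by
    rw [pow_mul]
    simpa using Nat.sub_dvd_pow_sub_pow (n ^ p) 1 c
  rw [← geo_mul hn, ← geo_mul hn] at h1
  exact Nat.dvd_of_mul_dvd_mul_right (by omega) h1

theorem odd_geo (n j : ℕ) : Odd (geo n (2 * j + 1)) := by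
  unfold geo
  induction j with
  | zero => simp
  | succ j ih =>
    rw [show 2 * (j + 1) + 1 = 2 * j + 1 + 1 + 1 by ring, sum_range_succ, sum_range_succ, add_assoc]
    refine ih.add_even ?_
    rw [pow_succ]
    have : Even (n ^ (2 * j + 1) * (1 + n)) := by
      rcases Nat.even_or_odd n with h | h
      · exact (h.pow_of_ne_zero (by omega)).mul_right _
      · exact Even.mul_left (by rw [add_comm]; exact h.add_one) _
    rw [mul_add, mul_one] at this
    exact this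

/-- the exclusion for odd dimension: no divisor of the order of the group has Jacobi symbol `-1` -/
theorem jacobi_odd {n m w r c n' : ℕ} (hm : Odd m) (hm3 : 3 ≤ m) (hn : 2 ≤ n) (h : HasSinger n m)
    (hw : w ∣ geo n m) (hr : r.Prime) (hc : Odd c) (hn' : n = r ^ c * n') (hrn : ¬ r ∣ n') :
    J((r : ℤ) | w) ≠ -1 := by
  intro hJ
  obtain ⟨G, hG, hGf, hGd, D, h1, h2, h3⟩ := h
  have hn1 : 0 < n - 1 := by omega
  have hv : Fintype.card G = geo n m :=
    Nat.eq_of_mul_eq_mul_right hn1 (h1.trans (geo_mul hn m).symm)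
  have hk : D.card = ∑ i ∈ Finset.range (m - 1), n ^ i :=
    Nat.eq_of_mul_eq_mul_right hn1 (h2.trans (geo_mul hn (m - 1)).symm)
  have hlam : ∀ g : G, g ≠ 1 → ((D ×ˢ D).filter (fun p : G × G => p.1 * p.2⁻¹ = g)).card =
      ∑ i ∈ Finset.range (m - 2), n ^ i := fun g hg =>
    Nat.eq_of_mul_eq_mul_right hn1 ((h3 g hg).trans (geo_mul hn (m - 2)).symm)
  have hodd : Odd (Fintype.card G) := by
    obtain ⟨j, rfl⟩ := hm
    rw [hv]
    exact odd_geo n j
  have hwo : Odd w := Odd.of_dvd_nat (hv ▸ hodd) hw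
  obtain ⟨q, hq, hq2, hqw, hpow⟩ := pow_of_jacobi hwo hJ
  have hru : ¬ (r : ℤ) ∣ ((n' : ℤ) ^ (m - 2)) := by
    intro h4
    have h5 := (Nat.prime_iff_prime_int.1 hr).dvd_of_dvd_pow h4
    exact hrn (by exact_mod_cast h5)
  refine no_difference_set D _ _ hk hlam hodd hq ((hqw.trans hw).trans (by rw [hv])) hr hpow
    (a := c * (m - 2)) ?_ hru ?_
  · refine hc.mul ?_
    obtain ⟨j, rfl⟩ := hm
    exact ⟨j - 1, by omega⟩
  · have h4 : m - 1 = (m - 2) + 1 := by omega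
    rw [h4, Finset.sum_range_succ]
    push_cast
    rw [hn']
    push_cast
    ring

theorem geo_mod_left {n r : ℕ} (hr : r ∣ n) {p : ℕ} (hp : 1 ≤ p) : (geo n p : ℤ) % r = 1 % r := by
  obtain ⟨p, rfl⟩ : ∃ p', p = p' + 1 := ⟨p - 1, by omega⟩
  obtain ⟨c, rfl⟩ := hr
  unfold geo
  rw [sum_range_succ']
  push_cast
  rw [pow_zero]
  have : (∑ k ∈ range p, ((r : ℤ) * c) ^ (k + 1)) = r * ∑ k ∈ range p, c * ((r : ℤ) * c) ^ k := by
    rw [mul_sum]
    refine sum_congr rfl fun k _ => ?_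
    ring
  rw [this, add_comm, Int.add_mul_emod_self_left]

theorem geo_mod_four {n : ℕ} (hn : n % 4 = 1) (p : ℕ) : geo n p % 4 = p % 4 := by
  unfold geo
  rw [Finset.sum_nat_mod]
  have : ∀ i ∈ range p, n ^ i % 4 = 1 := by
    intro i _
    rw [Nat.pow_mod, hn, one_pow]
    rfl
  rw [sum_congr rfl this]
  simp

/-- a prime which divides `n` exactly to the power `factorization` -/
theorem split {n r : ℕ} (hn : n ≠ 0) (hr : r.Prime) :
    n = r ^ n.factorization r * (n / r ^ n.factorization r) ∧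
      ¬ r ∣ n / r ^ n.factorization r :=
  ⟨(Nat.ordProj_mul_ordCompl_eq_self n r).symm, Nat.not_dvd_ordCompl hr hn⟩

/-- sums of two squares -/
theorem two_squares {n : ℕ} (h : ∀ r : ℕ, r.Prime → Odd (n.factorization r) → r % 4 ≠ 3) :
    ∃ x y : ℕ, n = x ^ 2 + y ^ 2 := by
  rw [Nat.eq_sq_add_sq_iff]
  intro r hr hr4
  have hrp := Nat.prime_of_mem_primeFactors hr
  rw [← Nat.factorization_def n hrp]
  by_contra hodd
  rw [Nat.not_even_iff_odd] at hodd
  exact h r hrp hodd hr4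

/-- **Odd dimension.** -/
theorem odd_dim {n m p : ℕ} (hn : 2 ≤ n) (h4 : n % 4 = 1) (hm : Odd m) (hp : p.Prime)
    (hp4 : p % 4 = 3) (hpm : p ∣ m) (h : HasSinger n m) : ∃ x y : ℕ, n = x ^ 2 + y ^ 2 := by
  refine two_squares fun r hrp hodd hr4 => ?_
  have hrn : r ∣ n := Nat.dvd_of_factorization_pos hodd.pos.ne'
  obtain ⟨e1, e2⟩ := split (n := n) (r := r) (by omega) hrp
  have hm3 : 3 ≤ m := by
    have h1 := Nat.le_of_dvd hm.pos hpm
    omega
  refine jacobi_odd hm hm3 hn h (w := geo n p) (geo_dvd hn hpm) hrp hodd e1 e2 ?_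
  have hg4 : geo n p % 4 = 3 := by rw [geo_mod_four h4, hp4]
  rw [jacobiSym.quadratic_reciprocity_three_mod_four hr4 hg4,
    jacobiSym.mod_left' (geo_mod_left hrn hp.pos), jacobiSym.one_left]

/-- the exclusion for even dimension -/
theorem jacobi_even {n m w r : ℕ} (hn : 2 ≤ n) (hm : Even m) (hm4 : 4 ≤ m) (h : Liftable n m)
    (hw : w ∣ n - 1) (hwo : Odd w) (hr : r.Prime) (hc : Odd (n.factorization r)) :
    J((r : ℤ) | w) ≠ -1 := by
  intro hJ
  obtain ⟨q, hq, hq2, hqw, hpow⟩ := pow_of_jacobi hwo hJ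
  obtain ⟨e1, e2⟩ := split (n := n) (r := r) (by omega) hr
  obtain ⟨Q, _, _, _, E, G, _, _, _, ⟨K, hK, hK2, hKo⟩, hE, hL⟩ := h
  obtain ⟨N, D, hN, hG, hNc, hD, h0, h1⟩ := lift_data hn (by omega) hE hL
  have hodd : Odd (m - 1) := by
    obtain ⟨c, hc⟩ := hm
    exact ⟨c - 1, by omega⟩
  refine rds_closed N K hK2 hKo D (n ^ (m - 2)) h0 h1 hq hq2 (by rw [hNc]; exact hqw.trans hw) hr
    hpow (hc.mul hodd) (u := (n / r ^ n.factorization r) ^ (m - 1)) ?_ ?_
  · intro h4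
    exact e2 (hr.dvd_of_dvd_pow h4)
  · rw [hD, pow_mul, ← mul_pow, ← e1]

/-- the value of the Jacobi symbol -/
theorem jacobi_value {n a w r : ℕ} (hn : 2 ≤ n) (hw : n - 1 = 2 ^ a * w) (hwo : Odd w)
    (hr : Odd r) (hrn : r ∣ n) :
    J((r : ℤ) | w) = (-1) ^ (r / 2 * (w / 2)) * (χ₄ r * χ₈ r ^ a) := by
  have h8 : χ₈ (r : ZMod 8) ^ a * χ₈ (r : ZMod 8) ^ a = 1 := by
    rw [← mul_pow]
    have : χ₈ (r : ZMod 8) * χ₈ (r : ZMod 8) = 1 := by
      rw [ZMod.χ₈_nat_eq_if_mod_eight]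
      have h1 := Nat.odd_iff.1 hr
      split_ifs <;> omega
    rw [this, one_pow]
  have h1 : J(((2 ^ a * w : ℕ) : ℤ) | r) = χ₄ r := by
    rw [← jacobiSym.at_neg_one hr, ← hw]
    apply jacobiSym.mod_left'
    rw [Int.emod_eq_emod_iff_emod_sub_eq_zero, Nat.cast_sub (by omega)]
    have : ((n : ℤ) - (1 : ℕ)) - (-1) = n := by
      push_cast
      ring
    rw [this]
    exact Int.emod_eq_zero_of_dvd (by exact_mod_cast hrn)
  rw [jacobiSym.quadratic_reciprocity hr hwo]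
  congr 1
  push_cast at h1
  rw [jacobiSym.mul_left, jacobiSym.pow_left, jacobiSym.at_two hr] at h1
  calc J((w : ℤ) | r) = (χ₈ (r : ZMod 8) ^ a * χ₈ (r : ZMod 8) ^ a) * J((w : ℤ) | r) := by
        rw [h8, one_mul]
    _ = (χ₈ (r : ZMod 8) ^ a * J((w : ℤ) | r)) * χ₈ (r : ZMod 8) ^ a := by ring
    _ = χ₄ r * χ₈ r ^ a := by rw [h1]

/-- **Even dimension.** -/
theorem even_dim {n m a w : ℕ} (hn : 2 ≤ n) (hm : Even m) (hm4 : 4 ≤ m) (h : Liftable n m)
    (hw : n - 1 = 2 ^ a * w) :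
    (Even a → w % 4 = 1 → ∃ x y : ℕ, n = x ^ 2 + y ^ 2) ∧
    (Odd a → w % 4 = 1 → ∀ r : ℕ, r.Prime → Odd (n.factorization r) → r % 8 = 1 ∨ r % 8 = 3) ∧
    (Odd a → w % 4 = 3 → ∀ r : ℕ, r.Prime → Odd (n.factorization r) → r % 8 = 1 ∨ r % 8 = 7) := by
  have key : ∀ r : ℕ, r.Prime → Odd (n.factorization r) → Odd r → Odd w →
      (-1) ^ (r / 2 * (w / 2)) * (χ₄ r * χ₈ r ^ a) ≠ -1 := by
    intro r hr ho hro hwo
    rw [← jacobi_value hn hw hwo hro (Nat.dvd_of_factorization_pos ho.pos.ne')]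
    exact jacobi_even hn hm hm4 h (hw ▸ Dvd.intro_left _ rfl) hwo hr ho
  have hodd : Odd a → Odd n := by
    intro ha
    have : Even (n - 1) := by
      rw [hw]
      exact (even_two.pow_of_ne_zero ha.pos.ne').mul_right _
    obtain ⟨c, hc⟩ := this
    exact ⟨c, by omega⟩
  have hro : Odd a → ∀ r : ℕ, Odd (n.factorization r) → Odd r := by
    intro ha r ho
    exact Odd.of_dvd_nat (hodd ha) (Nat.dvd_of_factorization_pos ho.pos.ne')
  refine ⟨fun ha hw4 => two_squares fun r hr ho hr4 => ?_, fun ha hw4 r hr ho => ?_,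
    fun ha hw4 r hr ho => ?_⟩
  · have hwo : Odd w := Nat.odd_iff.2 (by omega)
    have hr' : Odd r := Nat.odd_iff.2 (by omega)
    apply key r hr ho hr' hwo
    have h1 : Even (r / 2 * (w / 2)) := by
      have : Even (w / 2) := Nat.even_iff.2 (by omega)
      exact this.mul_left _
    have h2 : χ₈ (r : ZMod 8) ^ a = 1 := by
      obtain ⟨b, rfl⟩ := ha
      rw [← two_mul, pow_mul]
      have : χ₈ (r : ZMod 8) ^ 2 = 1 := by
        rw [ZMod.χ₈_nat_eq_if_mod_eight]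
        have h1 := Nat.odd_iff.1 hr'
        split_ifs <;> omega
      rw [this, one_pow]
    rw [h1.neg_one_pow, h2, one_mul, mul_one, ZMod.χ₄_nat_three_mod_four hr4]
  · have hwo : Odd w := Nat.odd_iff.2 (by omega)
    have hr' := hro ha r ho
    have h0 := key r hr ho hr' hwo
    have h1 : Even (r / 2 * (w / 2)) := by
      have : Even (w / 2) := Nat.even_iff.2 (by omega)
      exact this.mul_left _
    rw [h1.neg_one_pow, one_mul] at h0
    have h2 : χ₈ (r : ZMod 8) ^ a = χ₈ (r : ZMod 8) := by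
      obtain ⟨b, rfl⟩ := ha
      rw [pow_succ, pow_mul]
      have : χ₈ (r : ZMod 8) ^ 2 = 1 := by
        rw [ZMod.χ₈_nat_eq_if_mod_eight]
        have h1 := Nat.odd_iff.1 hr'
        split_ifs <;> omega
      rw [this, one_pow, one_mul]
    rw [h2, ZMod.χ₈_nat_eq_if_mod_eight, ZMod.χ₄_nat_eq_if_mod_four] at h0
    have h3 := Nat.odd_iff.1 hr'
    by_contra hcon
    apply h0
    have h4 : r % 8 = 5 ∨ r % 8 = 7 := by omega
    rcases h4 with h4 | h4
    · have h5 : r % 4 = 1 := by omega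
      simp [h3, h4, h5]
    · have h5 : r % 4 = 3 := by omega
      simp [h3, h4, h5]
  · have hwo : Odd w := Nat.odd_iff.2 (by omega)
    have hr' := hro ha r ho
    have h0 := key r hr ho hr' hwo
    have h2 : χ₈ (r : ZMod 8) ^ a = χ₈ (r : ZMod 8) := by
      obtain ⟨b, rfl⟩ := ha
      rw [pow_succ, pow_mul]
      have : χ₈ (r : ZMod 8) ^ 2 = 1 := by
        rw [ZMod.χ₈_nat_eq_if_mod_eight]
        have h1 := Nat.odd_iff.1 hr'
        split_ifs <;> omega
      rw [this, one_pow, one_mul]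
    rw [h2, ZMod.χ₈_nat_eq_if_mod_eight, ZMod.χ₄_nat_eq_if_mod_four] at h0
    have h3 := Nat.odd_iff.1 hr'
    by_contra hcon
    apply h0
    have h4 : r % 8 = 5 ∨ r % 8 = 3 := by omega
    have hw2 : Odd (w / 2) := Nat.odd_iff.2 (by omega)
    rcases h4 with h4 | h4
    · have h5 : r % 4 = 1 := by omega
      have h6 : Even (r / 2 * (w / 2)) := by
        have : Even (r / 2) := Nat.even_iff.2 (by omega)
        exact this.mul_right _
      rw [h6.neg_one_pow]
      simp [h3, h4, h5]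
    · have h5 : r % 4 = 3 := by omega
      have h6 : Odd (r / 2 * (w / 2)) := by
        have : Odd (r / 2) := Nat.odd_iff.2 (by omega)
        exact this.mul hw2
      rw [h6.neg_one_pow]
      simp [h3, h4, h5]

end Pool.Agent.T9h85.BR
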